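import Mathlib

set_option autoImplicit false

namespace Pool.Agent.Results.MP_f0eba7_co.K26

open SimpleGraph Finset

/-- `f` is a proportional `L`-colouring (lists of size `k`) -/
def IsProp {V : Type} [Fintype V] (G : SimpleGraph V) (k : ℕ) (L : V → Finset ℕ) (f : V → ℕ) : Prop :=
  (∀ v, f v ∈ L v) ∧ (∀ u v, G.Adj u v → f u ≠ f v) ∧ ∀ c, (∃ v, c ∈ L v) →
    (univ.filter fun v => f v = c).card = (univ.filter fun v => c ∈ L v).card / k ∨
    (univ.filter fun v => f v = c).card = ((univ.filter fun v => c ∈ L v).card + k - 1) / k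

/-- proportionally `k`-choosable -/
def PropCh {V : Type} [Fintype V] (G : SimpleGraph V) (k : ℕ) : Prop :=
  ∀ L : V → Finset ℕ, (∀ v, (L v).card = k) → ∃ f, IsProp G k L f

/-- the proportional choice number -/
noncomputable def chiPC {V : Type} [Fintype V] (G : SimpleGraph V) : ℕ :=
  sInf {k | 1 ≤ k ∧ PropCh G k}

/-- the complete multipartite graph with parts of sizes `n i` -/
def K {t : ℕ} (n : Fin t → ℕ) : SimpleGraph (Σ i, Fin (n i)) where
  Adj x y := x.1 ≠ y.1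
  symm := ⟨fun _ _ h => h.symm⟩
  loopless := ⟨fun _ h => h rfl⟩

/-- condition (H) -/
def CondH {t : ℕ} (n : Fin t → ℕ) : Prop := (∀ i, Even (n i)) ∧ ∀ i, n i ≤ ∑ j, n j / 2

def n26 : Fin 2 → ℕ := ![2, 6]

def L : (Σ i, Fin (n26 i)) → Finset ℕ := fun x =>
  if x.1 = 0 then {2, 3, 5, 6} else
    if x.2.val < 2 then {2, 3, 1, 4} else if x.2.val < 4 then {2, 3, 0, 4} else {2, 3, 0, 1}

lemma key : ∀ a ∈ ({2, 3, 5, 6} : Finset ℕ), ∀ b ∈ ({2, 3, 5, 6} : Finset ℕ),
    ∀ c ∈ ({2, 3, 1, 4} : Finset ℕ), ∀ d ∈ ({2, 3, 1, 4} : Finset ℕ),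
    ∀ e ∈ ({2, 3, 0, 4} : Finset ℕ), ∀ g ∈ ({2, 3, 0, 4} : Finset ℕ),
    ∀ h ∈ ({2, 3, 0, 1} : Finset ℕ), ∀ i ∈ ({2, 3, 0, 1} : Finset ℕ),
    a ∉ [c, d, e, g, h, i] → b ∉ [c, d, e, g, h, i] →
    [2, 3, 0, 1, 4].map (fun x => [a, b, c, d, e, g, h, i].count x) ≠ [2, 2, 1, 1, 1] := by
  decide +kernel

lemma bad : ¬ PropCh (K n26) 4 := by
  intro hP
  obtain ⟨f, h1, h2, h3⟩ := hP L (by decide)
  let v : (i : Fin 2) → (j : ℕ) → j < n26 i → Σ i, Fin (n26 i) := fun i j h => ⟨i, ⟨j, h⟩⟩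
  have cnt : ∀ c, (univ.filter fun x => f x = c).card =
      [f (v 0 0 (by decide)), f (v 0 1 (by decide)), f (v 1 0 (by decide)), f (v 1 1 (by decide)),
        f (v 1 2 (by decide)), f (v 1 3 (by decide)), f (v 1 4 (by decide)),
        f (v 1 5 (by decide))].count c := by
    intro c
    have e : (univ : Finset (Σ i, Fin (n26 i))) = ⟨([v 0 0 (by decide), v 0 1 (by decide),
        v 1 0 (by decide), v 1 1 (by decide), v 1 2 (by decide), v 1 3 (by decide),
        v 1 4 (by decide), v 1 5 (by decide)] : List _), by decide⟩ := by decide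
    rw [e]
    show (List.filter _ _).length = List.count c (List.map f [_, _, _, _, _, _, _, _])
    rw [List.count, List.countP_map, List.countP_eq_length_filter]
    rfl
  have ne : ∀ j hj l hl, f (v 0 j hj) ≠ f (v 1 l hl) := fun j hj l hl =>
    h2 _ _ (show (0 : Fin 2) ≠ 1 by decide)
  refine key _ (h1 (v 0 0 (by decide))) _ (h1 (v 0 1 (by decide))) _ (h1 (v 1 0 (by decide)))
    _ (h1 (v 1 1 (by decide))) _ (h1 (v 1 2 (by decide))) _ (h1 (v 1 3 (by decide)))
    _ (h1 (v 1 4 (by decide))) _ (h1 (v 1 5 (by decide))) (by simp [ne]) (by simp [ne]) ?_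
  simp only [List.map_cons, List.map_nil, ← cnt, List.cons.injEq, and_true]
  have t2 : (univ.filter fun x => 2 ∈ L x).card = 8 := by decide
  have t3 : (univ.filter fun x => 3 ∈ L x).card = 8 := by decide
  have t0 : (univ.filter fun x => 0 ∈ L x).card = 4 := by decide
  have t1 : (univ.filter fun x => 1 ∈ L x).card = 4 := by decide
  have t4 : (univ.filter fun x => 4 ∈ L x).card = 4 := by decide
  have := h3 2 (by decide)
  have := h3 3 (by decide)
  have := h3 0 (by decide)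
  have := h3 1 (by decide)
  have := h3 4 (by decide)
  omega

/-- `K_{2,6}` fails (H) and is not proportionally `4`-choosable. -/
theorem result : ∃ (t : ℕ) (n : Fin t → ℕ), 2 ≤ t ∧ (∀ i, 1 ≤ n i) ∧ ¬ CondH n ∧
    ¬ PropCh (K n) (∑ i, (n i + 1) / 2) ∧ chiPC (K n) ≠ ∑ i, (n i + 1) / 2 := by
  refine ⟨2, n26, le_rfl, by decide, fun h => absurd (h.2 1) (by decide), bad, fun h => ?_⟩
  have h4 : chiPC (K n26) = 4 := h
  have := Nat.sInf_mem (Nat.nonempty_of_pos_sInf (s := {k | 1 ≤ k ∧ PropCh (K n26) k})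
    (by show 0 < chiPC (K n26); omega))
  exact bad (h4 ▸ this.2)

end Pool.Agent.Results.MP_f0eba7_co.K26
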